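import Pool.Agent.N869.GK.Stm
import Pool.Agent.N123.ZE.RAREKA

/-!
# Project GK (helper869), ESTG: the weighted sieve, modulus `M` (helper340)

Port of helper123's file `Pool/Agent/N123/ZE/RAREKA.lean`.
-/

set_option autoImplicit false

open scoped Classical

namespace Pool.Agent.N340.GK

open Finset Filter
open Pool.Agent.Y699.E (sum_le_inj)
open Pool.Agent.Y703.CQ (nr)
open Pool.Agent.N916.GB (Po SA)
open Pool.Agent.N856.JL (S_MEQ)
open Pool.Agent.N869.GK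
open Pool.Agent.Y495.CX.Few (euler)
open Pool.Agent.N124.QT (h_le sum_rpow_le)
open Pool.Agent.N123.ZE.RAREK (SA_mem SA_sub card_SA wsieve)

lemma log_ge_one {Y : ℕ} (hY : 3 ≤ Y) : 1 ≤ Real.log Y := by
  rw [Real.le_log_iff_exp_le (by exact_mod_cast (by omega : 0 < Y))]
  have h1 := Real.exp_one_lt_d9
  have h3 : (3 : ℝ) ≤ Y := by exact_mod_cast hY
  linarith

/-- the sieve bounds give bounds for the sums of the averaged weights -/
theorem avgG {A κ : ℝ} {Y : ℕ} (g : ℕ → ℝ) (hg0 : ∀ p, 1 / 3 ≤ g p) (hg1 : ∀ p, g p ≤ 1)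
    {q : ℝ} (hr : 1 ≤ q) (hA : 1 ≤ A) (hY : 3 ≤ Y)
    (h : ∑ S ∈ SA Y, ∏ p ∈ S, g p ≤ A * ((Y : ℝ) * (Real.log Y) ^ (-κ))) :
    ∑ S ∈ SA Y, ∏ p ∈ S, (1 - (1 - g p) / q) ≤
      A * ((Y : ℝ) * (Real.log Y) ^ (-(κ / 3 / q) : ℝ)) := by
  have hr0 : 0 < q := by linarith
  have hh0 : ∀ p, 0 ≤ 1 - (1 - g p) / q := by
    intro p
    have h1 := hg0 p
    have h2 := hg1 p
    have : (1 - g p) / q ≤ 1 := by
      rw [div_le_one hr0]
      linarith
    linarith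
  set θ : ℝ := 1 / (3 * q) with hθ
  have hθ0 : 0 < θ := by rw [hθ]; positivity
  have hθ1 : θ ≤ 1 := by
    rw [hθ, div_le_one (by positivity)]
    linarith
  have h1 : ∀ S ∈ SA Y, ∏ p ∈ S, (1 - (1 - g p) / q) ≤ (∏ p ∈ S, g p) ^ θ := by
    intro S _
    rw [← Real.finsetProd_rpow _ _ (fun p _ => by have := hg0 p; linarith)]
    exact prod_le_prod (fun p _ => hh0 p) fun p _ => h_le hr (hg0 p) (hg1 p)
  refine (sum_le_sum h1).trans ?_
  have h2 := sum_rpow_le (SA Y) (fun S => ∏ p ∈ S, g p)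
    (fun S _ => prod_nonneg fun p _ => by have := hg0 p; linarith) hθ0 hθ1
    (show ((SA Y).card : ℝ) ≤ (Y : ℝ) by exact_mod_cast card_SA Y) h
  refine h2.trans ?_
  have hT0 : (0 : ℝ) < Y := by exact_mod_cast (by omega : 0 < Y)
  have hl1 : 1 ≤ Real.log Y := log_ge_one hY
  have hl0 : 0 < Real.log Y := by linarith
  have hA0 : 0 < A := by linarith
  have e1 : (Y : ℝ) ^ (1 - θ) * (A * (Y * (Real.log Y) ^ (-κ))) ^ θ =
      A ^ θ * (Y * (Real.log Y) ^ (-(κ / 3 / q) : ℝ)) := by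
    rw [Real.mul_rpow hA0.le (by positivity), Real.mul_rpow hT0.le (by positivity),
      ← Real.rpow_mul hl0.le (-κ) θ]
    have e2 : (Y : ℝ) ^ (1 - θ) * (Y : ℝ) ^ θ = Y := by
      rw [← Real.rpow_add hT0]
      norm_num
    have e3 : (-κ) * θ = -(κ / 3 / q) := by
      rw [hθ]
      field_simp
    rw [e3]
    calc _ = A ^ θ * (((Y : ℝ) ^ (1 - θ) * (Y : ℝ) ^ θ) * (Real.log Y) ^ (-(κ / 3 / q) : ℝ)) := by
          ring
      _ = _ := by rw [e2]
  rw [e1]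
  have f2 : A ^ θ ≤ A := by
    calc A ^ θ ≤ A ^ (1 : ℝ) := Real.rpow_le_rpow_of_exponent_le hA hθ1
      _ = A := Real.rpow_one _
  gcongr

/-- from the logarithmic sums to the averaged weights -/
theorem mainG {κ : ℝ} : ∃ C₁ : ℝ, 1 ≤ C₁ ∧ ∀ (Y : ℕ) (g : ℕ → ℝ) (A q : ℝ), 1 ≤ q → 3 ≤ Y →
    (∀ p, 1 / 3 ≤ g p) → (∀ p, g p ≤ 1) → 1 ≤ A →
    ∑ S ∈ SA Y, ∏ p ∈ S, (g p * (1 / (p : ℝ))) ≤ A * (Real.log Y) ^ (1 - κ) →
    ∑ S ∈ SA Y, ∏ p ∈ S, (1 - (1 - g p) / q) ≤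
      C₁ * A * ((Y : ℝ) * (Real.log Y) ^ (-(κ / 3 / q) : ℝ)) := by
  obtain ⟨C₁, h11, h1⟩ := wsieve
  refine ⟨C₁, h11, fun Y g A q hq hY hg0 hg1 hA h => ?_⟩
  have hl1 : 1 ≤ Real.log Y := log_ge_one hY
  have hl0 : 0 < Real.log Y := by linarith
  have hpow : (Real.log Y) ^ (1 - κ) = (Real.log Y) ^ (-κ) * Real.log Y := by
    have : (Real.log Y) ^ (1 - κ) = (Real.log Y) ^ (-κ) * (Real.log Y) ^ (1 : ℝ) := by
      rw [← Real.rpow_add hl0]
      congr 1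
      ring
    rwa [Real.rpow_one] at this
  refine avgG g hg0 hg1 hq (by nlinarith) hY ?_
  have h4 := h1 Y g (by omega) (fun p => by have := hg0 p; linarith) hg1
  have h5 : C₁ * Y * ∑ S ∈ SA Y, ∏ p ∈ S, (g p * (1 / (p : ℝ))) ≤
      C₁ * Y * (A * (Real.log Y) ^ (1 - κ)) :=
    mul_le_mul_of_nonneg_left h (by positivity)
  have h6 := h4.trans h5
  rw [hpow] at h6
  have h7 : C₁ * Y * (A * ((Real.log Y) ^ (-κ) * Real.log Y)) =
      (C₁ * A * (Y * (Real.log Y) ^ (-κ))) * Real.log Y := by ring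
  rw [h7] at h6
  exact le_of_mul_le_mul_right h6 hl0

/-- the primes with label zero at which the product of the primes of `W` is a square -/
def HpG {r : ℕ} (M : ℕ) (lb : ℕ → Gr r) (W : Finset ℕ) (p : ℕ) : Prop :=
  ¬ p ∣ M ∧ lb p = 0 ∧ p ∉ W ∧ ∑ u ∈ W, nr p u = 0

lemma gWG_ge {r : ℕ} (M : ℕ) (lb : ℕ → Gr r) (W : Finset ℕ) (p : ℕ) : 1 / 3 ≤ gWG M lb W p := by
  unfold gWG
  split_ifs <;> norm_num

lemma gWG_le {r : ℕ} (M : ℕ) (lb : ℕ → Gr r) (W : Finset ℕ) (p : ℕ) : gWG M lb W p ≤ 1 := by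
  unfold gWG
  split_ifs <;> norm_num

lemma gAG_ge (M a p : ℕ) : 1 / 3 ≤ gAG M a p := by
  unfold gAG
  split_ifs <;> norm_num

lemma gAG_le (M a p : ℕ) : gAG M a p ≤ 1 := by
  unfold gAG
  split_ifs <;> norm_num

/-- all the primes -/
lemma mer1 (hM : S_MEQ) : ∃ C : ℝ, ∀ y : ℕ, 3 ≤ y →
    ∑ p ∈ (range (y + 1)).filter (fun p => p.Prime), (1 : ℝ) / p ≤ Real.log (Real.log y) + C := by
  obtain ⟨C, hC⟩ := hM 1 0 le_rfl (Nat.coprime_one_right 0)
  refine ⟨C, fun y hy => ?_⟩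
  have h := (abs_le.1 (hC y hy)).2
  have e : (range (y + 1)).filter (fun p => p.Prime ∧ p % 1 = 0 % 1) =
      (range (y + 1)).filter (fun p => p.Prime) := by
    apply filter_congr
    intro p _
    simp [Nat.mod_one]
  rw [e] at h
  simp only [Nat.totient_one, Nat.cast_one, div_one, one_mul] at h
  linarith

/-- the logarithmic sum for the weight of a set -/
theorem logWG (hH : S_HALG) (hCl : S_CLSG) (hMq : S_MEQ) {r : ℕ} {M : ℕ} {lb : ℕ → Gr r}
    (hL : LabZ M lb) : ∃ C : ℝ, 1 ≤ C ∧ ∀ (W : Finset ℕ) (Y : ℕ), W.Nonempty →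
    (∀ u ∈ W, Po u ∧ ¬ u ∣ M) → 3 ≤ Y →
    ∑ S ∈ SA Y, ∏ p ∈ S, (gWG M lb W p * (1 / (p : ℝ))) ≤
      C * (1 + Real.log ((∏ u ∈ W, u : ℕ) : ℝ)) *
        (Real.log Y) ^ (1 - 1 / 6 * (1 / 2 ^ (M.primeFactors.card + 1)) : ℝ) := by
  obtain ⟨C₂, h21, h2⟩ := hH r M lb hL
  obtain ⟨C₄, h4⟩ := mer1 hMq
  obtain ⟨C₅, h5⟩ := hCl hMq r M lb hL
  refine ⟨C₂ * Real.exp (|C₄| + |C₅|), ?_, fun W Y hW hW1 hY => ?_⟩
  · have := Real.one_le_exp (show 0 ≤ |C₄| + |C₅| by positivity)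
    nlinarith
  have hlY : 1 ≤ Real.log Y := log_ge_one hY
  have hlY0 : 0 < Real.log Y := by linarith
  obtain ⟨e, he⟩ : ∃ e : ℝ, e = 1 / 2 ^ (M.primeFactors.card + 1) := ⟨_, rfl⟩
  have he0 : 0 < e := by rw [he]; positivity
  have he2 : (1 / 2 ^ (M.primeFactors.card + 2) : ℝ) = e / 2 := by
    rw [he, pow_succ _ (M.primeFactors.card + 1)]
    field_simp
  set R := (range (Y + 1)).filter fun p => Po p ∧ ¬ HpG M lb W p with hR
  have hnn : ∀ p : ℕ, 0 ≤ gWG M lb W p * (1 / (p : ℝ)) := fun p =>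
    mul_nonneg (by have := gWG_ge M lb W p; linarith) (by positivity)
  have hsplit : ∑ S ∈ SA Y, ∏ p ∈ S, (gWG M lb W p * (1 / (p : ℝ))) ≤
      (∑ S ∈ HDG M lb W Y, (1 : ℝ) / ((∏ p ∈ S, p : ℕ) : ℝ)) *
        ∑ T ∈ R.powerset, ∏ p ∈ T, (gWG M lb W p * (1 / (p : ℝ))) := by
    rw [sum_mul_sum, ← sum_product' (f := fun S T => (1 : ℝ) / ((∏ p ∈ S, p : ℕ) : ℝ) *
      ∏ p ∈ T, (gWG M lb W p * (1 / (p : ℝ))))]
    refine sum_le_inj (fun T => (T.filter (fun p => HpG M lb W p),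
      T.filter (fun p => ¬ HpG M lb W p))) ?_ ?_ ?_ ?_
    · intro T hT
      have hT' := hT
      rw [SA_mem] at hT'
      obtain ⟨h1, h3⟩ := hT'
      unfold SA at hT
      rw [mem_filter, mem_powerset] at hT
      rw [mem_product]
      refine ⟨?_, ?_⟩
      · rw [HDG, mem_filter, mem_powerset]
        refine ⟨(filter_subset _ _).trans hT.1, fun p hp => ?_, ?_⟩
        · obtain ⟨k1, k2⟩ := mem_filter.1 hp
          exact ⟨(h1 p k1).1, k2.1, k2.2.1, k2.2.2.1, k2.2.2.2⟩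
        · exact (SA_mem.1 (SA_sub (SA_mem.2 ⟨h1, h3⟩)
            (filter_subset (fun p => HpG M lb W p) T))).2
      · rw [mem_powerset]
        intro p hp
        obtain ⟨k1, k2⟩ := mem_filter.1 hp
        rw [hR, mem_filter]
        exact ⟨hT.1 k1, h1 p k1, k2⟩
    · intro S hS T hT h
      simp only [Prod.mk.injEq] at h
      rw [← filter_union_filter_not_eq (fun p => HpG M lb W p) S,
        ← filter_union_filter_not_eq (fun p => HpG M lb W p) T, h.1, h.2]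
    · intro T hT
      apply le_of_eq
      have e1 : ∏ p ∈ T, (gWG M lb W p * (1 / (p : ℝ))) =
          (∏ p ∈ T.filter (fun p => HpG M lb W p), (gWG M lb W p * (1 / (p : ℝ)))) *
          ∏ p ∈ T.filter (fun p => ¬ HpG M lb W p), (gWG M lb W p * (1 / (p : ℝ))) :=
        (prod_filter_mul_prod_filter_not T (fun p => HpG M lb W p) _).symm
      rw [e1]
      simp only
      congr 1
      have e2 : ∀ p ∈ T.filter (fun p => HpG M lb W p), gWG M lb W p * (1 / (p : ℝ)) =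
          1 / (p : ℝ) := by
        intro p hp
        have hp' := (mem_filter.1 hp).2
        unfold gWG
        rw [if_neg (fun h => h.2.2 ⟨hp'.2.2.1, hp'.2.2.2⟩), one_mul]
      rw [prod_congr rfl e2, prod_div_distrib, prod_const_one]
      push_cast
      rfl
    · intro x _
      exact mul_nonneg (by positivity) (prod_nonneg fun p _ => hnn p)
  have hR1 : ∑ T ∈ R.powerset, ∏ p ∈ T, (gWG M lb W p * (1 / (p : ℝ))) ≤
      Real.exp (|C₄| + |C₅|) * (Real.log Y) ^ (1 - 2 / 3 * e) := by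
    refine (euler R _ fun p _ => hnn p).trans ?_
    rw [Real.rpow_def_of_pos hlY0, ← Real.exp_add]
    apply Real.exp_le_exp.2
    have e1 : ∑ p ∈ R, gWG M lb W p * (1 / (p : ℝ)) ≤
        ∑ p ∈ (range (Y + 1)).filter (fun p => p.Prime), (1 : ℝ) / p -
        2 / 3 * ∑ p ∈ (range (Y + 1)).filter (fun p => p.Prime ∧ ¬ p ∣ M ∧ lb p = 0),
          (1 : ℝ) / p := by
      rw [mul_sum, hR, sum_filter, sum_filter, sum_filter, ← sum_sub_distrib]
      refine sum_le_sum fun p _ => ?_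
      have h0 : (0 : ℝ) ≤ 1 / p := by positivity
      by_cases hp : p.Prime
      · rw [if_pos hp]
        by_cases hz : ¬ p ∣ M ∧ lb p = 0
        · rw [if_pos (⟨hp, hz⟩ : p.Prime ∧ ¬ p ∣ M ∧ lb p = 0)]
          by_cases hR' : Po p ∧ ¬ HpG M lb W p
          · rw [if_pos hR']
            have hg : gWG M lb W p = 1 / 3 := by
              unfold gWG
              rw [if_pos ⟨hz.1, hz.2, fun h => hR'.2 ⟨hz.1, hz.2, h.1, h.2⟩⟩]
            rw [hg]
            linarith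
          · rw [if_neg hR']
            linarith
        · rw [if_neg (fun h : p.Prime ∧ ¬ p ∣ M ∧ lb p = 0 => hz h.2)]
          split_ifs
          · have h1 := gWG_le M lb W p
            nlinarith
          · linarith
      · rw [if_neg (fun h : Po p ∧ ¬ HpG M lb W p => hp h.1.1), if_neg hp,
          if_neg (fun h : p.Prime ∧ ¬ p ∣ M ∧ lb p = 0 => hp h.1)]
        simp
    have e2 := h4 Y hY
    have e3 := (abs_le.1 (h5 Y hY)).1
    rw [← he] at e3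
    have e4 := le_abs_self C₄
    have e5 := le_abs_self C₅
    have e6 := abs_nonneg C₅
    linarith
  have hHb := h2 W Y hW hW1 (by omega)
  rw [he2] at hHb
  rw [← he]
  have hlW : 0 ≤ Real.log ((∏ u ∈ W, u : ℕ) : ℝ) := Real.log_natCast_nonneg _
  have hpp : (Real.log Y) ^ (1 - 1 / 6 * e) =
      (Real.log Y) ^ (e / 2) * (Real.log Y) ^ (1 - 2 / 3 * e) := by
    rw [← Real.rpow_add hlY0]
    congr 1
    ring
  have h50 : 0 ≤ ∑ S ∈ HDG M lb W Y, (1 : ℝ) / ((∏ p ∈ S, p : ℕ) : ℝ) :=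
    sum_nonneg fun _ _ => by positivity
  have h51 : 0 ≤ ∑ T ∈ R.powerset, ∏ p ∈ T, (gWG M lb W p * (1 / (p : ℝ))) :=
    sum_nonneg fun _ _ => prod_nonneg fun p _ => hnn p
  calc _ ≤ _ := hsplit
    _ ≤ (C₂ * (1 + Real.log ((∏ u ∈ W, u : ℕ) : ℝ)) * (Real.log Y) ^ (e / 2)) *
        (Real.exp (|C₄| + |C₅|) * (Real.log Y) ^ (1 - 2 / 3 * e)) :=
        mul_le_mul hHb hR1 h51 (h50.trans hHb)
    _ = _ := by
        rw [hpp]
        ring

/-- the logarithmic sum for the primes in a class -/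
theorem logAG (hMq : S_MEQ) {M : ℕ} (hM : 1 ≤ M) {a : ℕ} (ha : a.Coprime M) : ∃ C : ℝ, 1 ≤ C ∧
    ∀ (Y : ℕ), 3 ≤ Y →
    ∑ S ∈ SA Y, ∏ p ∈ S, (gAG M a p * (1 / (p : ℝ))) ≤
      C * (Real.log Y) ^ (1 - 2 / 3 * (1 / (Nat.totient M : ℝ))) := by
  obtain ⟨C₁, h1⟩ := mer1 hMq
  obtain ⟨C₃, h3⟩ := hMq M a hM ha
  refine ⟨Real.exp (|C₁| + |C₃|), Real.one_le_exp (by positivity), fun Y hY => ?_⟩
  have hlY : 1 ≤ Real.log Y := log_ge_one hY
  have hlY0 : 0 < Real.log Y := by linarith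
  have hnn : ∀ p : ℕ, 0 ≤ gAG M a p * (1 / (p : ℝ)) := fun p =>
    mul_nonneg (by have := gAG_ge M a p; linarith) (by positivity)
  set D := (range (Y + 1)).filter fun p => Po p with hD
  have e0 : ∑ S ∈ SA Y, ∏ p ∈ S, (gAG M a p * (1 / (p : ℝ))) ≤
      ∑ S ∈ D.powerset, ∏ p ∈ S, (gAG M a p * (1 / (p : ℝ))) := by
    refine sum_le_sum_of_subset_of_nonneg ?_ fun S _ _ => prod_nonneg fun p _ => hnn p
    intro S hS
    have hS' := (SA_mem.1 hS).1
    unfold SA at hS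
    rw [mem_filter, mem_powerset] at hS
    rw [mem_powerset]
    intro p hp
    rw [hD, mem_filter]
    exact ⟨hS.1 hp, hS' p hp⟩
  refine e0.trans ((euler D _ fun p _ => hnn p).trans ?_)
  rw [Real.rpow_def_of_pos hlY0, ← Real.exp_add]
  apply Real.exp_le_exp.2
  have e1 : ∑ p ∈ D, gAG M a p * (1 / (p : ℝ)) ≤
      ∑ p ∈ (range (Y + 1)).filter (fun p => p.Prime), (1 : ℝ) / p -
      2 / 3 * ∑ p ∈ (range (Y + 1)).filter (fun p => p.Prime ∧ p % M = a % M), (1 : ℝ) / p := by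
    rw [mul_sum, hD, sum_filter, sum_filter, sum_filter, ← sum_sub_distrib]
    refine sum_le_sum fun p _ => ?_
    have h0 : (0 : ℝ) ≤ 1 / p := by positivity
    by_cases hp : p.Prime
    · rw [if_pos hp]
      by_cases hz : p % M = a % M
      · rw [if_pos (⟨hp, hz⟩ : p.Prime ∧ p % M = a % M)]
        have hg : gAG M a p = 1 / 3 := by
          unfold gAG
          rw [if_pos hz]
        rw [hg]
        split_ifs <;> linarith
      · rw [if_neg (fun h : p.Prime ∧ p % M = a % M => hz h.2)]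
        have hg : gAG M a p = 1 := by
          unfold gAG
          rw [if_neg hz]
        rw [hg]
        split_ifs <;> linarith
    · rw [if_neg (fun h : Po p => hp h.1), if_neg hp,
        if_neg (fun h : p.Prime ∧ p % M = a % M => hp h.1)]
      simp
  have e2 := h1 Y hY
  have e3 := (abs_le.1 (h3 Y hY)).1
  have e4 := le_abs_self C₁
  have e5 := le_abs_self C₃
  have e6 := abs_nonneg C₃
  linarith

/-- **GK-ESTG**: the weighted sieve. -/
theorem t_ESTG : S_ESTG := by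
  intro hH hCl hMq r M lb hL
  have hM : 1 ≤ M := hL.pos
  obtain ⟨C₂, h21, h2⟩ := logWG hH hCl hMq hL
  have hA : ∀ a : ℕ, ∃ C : ℝ, 1 ≤ C ∧ (a.Coprime M → ∀ (Y : ℕ), 3 ≤ Y →
      ∑ S ∈ SA Y, ∏ p ∈ S, (gAG M a p * (1 / (p : ℝ))) ≤
        C * (Real.log Y) ^ (1 - 2 / 3 * (1 / (Nat.totient M : ℝ)))) := by
    intro a
    by_cases ha : a.Coprime M
    · obtain ⟨C, hC1, hC⟩ := logAG hMq hM ha
      exact ⟨C, hC1, fun _ => hC⟩
    · exact ⟨1, le_rfl, fun h => absurd h ha⟩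
  choose CA hCA1 hCA using hA
  obtain ⟨κ₀, hκ₀⟩ : ∃ κ₀ : ℝ, κ₀ = min (1 / 6 * (1 / 2 ^ (M.primeFactors.card + 1)))
    (2 / 3 * (1 / (Nat.totient M : ℝ))) := ⟨_, rfl⟩
  have htot : (0 : ℝ) < Nat.totient M := by exact_mod_cast Nat.totient_pos.2 hM
  have hκ0 : 0 < κ₀ := by
    rw [hκ₀]
    apply lt_min <;> positivity
  have hκ1 : κ₀ ≤ 1 := by
    rw [hκ₀]
    refine (min_le_left _ _).trans ?_
    have : (1 : ℝ) / 2 ^ (M.primeFactors.card + 1) ≤ 1 := by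
      rw [div_le_one (by positivity)]
      exact one_le_pow₀ (by norm_num)
    linarith
  obtain ⟨C₁, h11, h1⟩ := mainG (κ := κ₀)
  have hC1 : 0 < C₁ := by linarith
  obtain ⟨CS, hCS⟩ : ∃ CS, CS = ∑ a ∈ range M, CA a := ⟨_, rfl⟩
  have hCS0 : 0 ≤ CS := by
    rw [hCS]
    exact sum_nonneg fun a _ => by have := hCA1 a; linarith
  refine ⟨C₁ * (C₂ + CS), κ₀ / 3, by nlinarith, by positivity, by linarith, fun q Y hq hY => ?_⟩
  have hT0 : (0 : ℝ) < Y := by exact_mod_cast (by omega : 0 < Y)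
  have hl1 : 1 ≤ Real.log Y := log_ge_one hY
  have hl0 : 0 < Real.log Y := by linarith
  have hrr : 0 ≤ (Y : ℝ) * (Real.log Y) ^ (-(κ₀ / 3 / q) : ℝ) :=
    mul_nonneg hT0.le (Real.rpow_nonneg hl0.le _)
  refine ⟨fun W hW hW1 => ?_, fun a ha haM => ?_⟩
  · have hlW : 0 ≤ Real.log ((∏ u ∈ W, u : ℕ) : ℝ) := Real.log_natCast_nonneg _
    have h3 := h2 W Y hW hW1 hY
    have h4 : (Real.log Y) ^ (1 - 1 / 6 * (1 / 2 ^ (M.primeFactors.card + 1)) : ℝ) ≤
        (Real.log Y) ^ (1 - κ₀) := by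
      apply Real.rpow_le_rpow_of_exponent_le hl1
      have := min_le_left (1 / 6 * (1 / 2 ^ (M.primeFactors.card + 1)) : ℝ)
        (2 / 3 * (1 / (Nat.totient M : ℝ)))
      rw [← hκ₀] at this
      linarith
    have h5 := h3.trans (mul_le_mul_of_nonneg_left h4
      (show 0 ≤ C₂ * (1 + Real.log ((∏ u ∈ W, u : ℕ) : ℝ)) by nlinarith))
    refine (h1 Y (gWG M lb W) (C₂ * (1 + Real.log ((∏ u ∈ W, u : ℕ) : ℝ))) q hq hY
      (gWG_ge M lb W) (gWG_le M lb W) (by nlinarith) h5).trans ?_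
    refine mul_le_mul_of_nonneg_right ?_ hrr
    calc C₁ * (C₂ * (1 + Real.log ((∏ u ∈ W, u : ℕ) : ℝ))) =
        C₁ * C₂ * (1 + Real.log ((∏ u ∈ W, u : ℕ) : ℝ)) := by ring
      _ ≤ _ := by
          refine mul_le_mul_of_nonneg_right ?_ (by linarith)
          exact mul_le_mul_of_nonneg_left (by linarith) hC1.le
  · have h3 := hCA a haM Y hY
    have h4 : (Real.log Y) ^ (1 - 2 / 3 * (1 / (Nat.totient M : ℝ))) ≤
        (Real.log Y) ^ (1 - κ₀) := by
      apply Real.rpow_le_rpow_of_exponent_le hl1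
      have := min_le_right (1 / 6 * (1 / 2 ^ (M.primeFactors.card + 1)) : ℝ)
        (2 / 3 * (1 / (Nat.totient M : ℝ)))
      rw [← hκ₀] at this
      linarith
    have hCa1 := hCA1 a
    have h5 := h3.trans (mul_le_mul_of_nonneg_left h4 (by linarith))
    refine (h1 Y (gAG M a) (CA a) q hq hY (gAG_ge M a) (gAG_le M a) hCa1 h5).trans ?_
    refine mul_le_mul_of_nonneg_right ?_ hrr
    apply mul_le_mul_of_nonneg_left _ hC1.le
    have h6 : CA a ≤ CS := by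
      rw [hCS]
      exact single_le_sum (f := CA) (fun b _ => by have := hCA1 b; linarith) (mem_range.2 ha)
    linarith

end Pool.Agent.N340.GK
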