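import Pool.Agent.N869.GK.D.Stm
import Pool.Agent.W402.FK.RKS

/-!
# Project GK (helper869), D-LCG: the classes of local points form a group (helper340)
-/

set_option autoImplicit false

open Filter Topology
open Pool.Agent.TH841.SH (LocC pt_real pt_pad)
open Pool.Agent.N869.GK.D (GrpK S_LCG)

namespace Pool.Agent.N340.GK.LCG

section alg

variable {K : Type} [Field K]

/-- the chord through two points -/
theorem chord {e1 e2 e3 x y x2 μ : K} (hD : x ≠ x2)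
    (hy : y ^ 2 = (x - e1) * (x - e2) * (x - e3))
    (hy2 : (y - μ * (x - x2)) ^ 2 = (x2 - e1) * (x2 - e2) * (x2 - e3)) (X : K) :
    (X - e1) * (X - e2) * (X - e3) - (μ * X + (y - μ * x)) ^ 2 =
      (X - x) * (X - x2) * (X - (μ ^ 2 - x - x2 + e1 + e2 + e3)) := by
  have hD' : x - x2 ≠ 0 := sub_ne_zero.2 hD
  apply mul_left_cancel₀ hD'
  linear_combination (-(X - x2)) * hy + (X - x) * hy2

theorem sq_of {u v w m m' : K} (hu : u ≠ 0) (hv : v ≠ 0) (h : IsSquare (u * v * w))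
    (h1 : IsSquare (u * m)) (h2 : IsSquare (v * m')) : IsSquare (w * (m * m')) := by
  obtain ⟨s, hs⟩ := h
  obtain ⟨a, ha⟩ := h1
  obtain ⟨b, hb⟩ := h2
  refine ⟨s * a * b / (u * v), ?_⟩
  have h3 : w * (m * m') = (u * v * w) * (u * m) * (v * m') / (u * v) ^ 2 := by
    field_simp
  rw [h3, hs, ha, hb]
  field_simp

theorem sq_of2 {u v m : K} (hv : v ≠ 0) (h : IsSquare (u * v)) (h1 : IsSquare (v * m)) :
    IsSquare (u * m) := by
  obtain ⟨s, hs⟩ := h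
  obtain ⟨a, ha⟩ := h1
  refine ⟨s * a / v, ?_⟩
  have h3 : u * m = (u * v) * (v * m) / v ^ 2 := by
    field_simp
  rw [h3, hs, ha]
  field_simp

/-- quadratic equations have finitely many solutions -/
theorem fin_quad {a b c : K} (ha : a ≠ 0) : {x : K | a * x ^ 2 + b * x + c = 0}.Finite := by
  classical
  set P : Polynomial K := Polynomial.C a * Polynomial.X ^ 2 + Polynomial.C b * Polynomial.X +
    Polynomial.C c with hP
  have hP0 : P ≠ 0 := by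
    intro h0
    have h1 := congrArg (fun p => Polynomial.coeff p 2) h0
    simp [hP, Polynomial.coeff_X, Polynomial.coeff_C] at h1
    exact ha h1
  refine (P.roots.toFinset.finite_toSet).subset fun x hx => ?_
  have hx' : a * x ^ 2 + b * x + c = 0 := hx
  rw [Finset.mem_coe, Multiset.mem_toFinset, Polynomial.mem_roots hP0, Polynomial.IsRoot.def, hP]
  simpa using hx'

/-- the points excluded for the root `e` -/
theorem fin_ex {e f g x2 y2 : K} (h : x2 ≠ e) :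
    {x : K | y2 ^ 2 * (x - e) = (x - f) * (x - g) * (x2 - e) ^ 2}.Finite := by
  have h0 : (x2 - e) ^ 2 ≠ 0 := pow_ne_zero 2 (sub_ne_zero.2 h)
  refine (fin_quad (a := (x2 - e) ^ 2) (b := -(f + g) * (x2 - e) ^ 2 - y2 ^ 2)
    (c := f * g * (x2 - e) ^ 2 + y2 ^ 2 * e) h0).subset fun x hx => ?_
  have hx' : y2 ^ 2 * (x - e) = (x - f) * (x - g) * (x2 - e) ^ 2 := hx
  show (x2 - e) ^ 2 * x ^ 2 + (-(f + g) * (x2 - e) ^ 2 - y2 ^ 2) * x +
    (f * g * (x2 - e) ^ 2 + y2 ^ 2 * e) = 0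
  linear_combination -hx'

/-- the third point of the chord is not the root `e` -/
theorem ne_root {e f g x y x2 y2 μ : K} (hx : x ≠ e)
    (hy : y ^ 2 = (x - e) * ((x - f) * (x - g)))
    (hy2 : y2 = y - μ * (x - x2))
    (hex : ¬ y2 ^ 2 * (x - e) = (x - f) * (x - g) * (x2 - e) ^ 2) :
    μ * e + (y - μ * x) ≠ 0 := by
  intro h0
  apply hex
  have hx' : x - e ≠ 0 := sub_ne_zero.2 hx
  have h1 : y = μ * (x - e) := by linear_combination h0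
  have h2 : y2 = μ * (x2 - e) := by linear_combination hy2 + h1
  have h3 : μ ^ 2 * (x - e) = (x - f) * (x - g) := by
    apply mul_left_cancel₀ hx'
    rw [h1] at hy
    linear_combination hy
  rw [h2]
  linear_combination (x2 - e) ^ 2 * h3

/-- the sum of two points -/
theorem mul_core {e1 e2 e3 m n m' n' x0 y0 x2 y2 x : K} (hy0 : y0 ≠ 0)
    (h0 : y0 ^ 2 = (x0 - e1) * (x0 - e2) * (x0 - e3)) (a0 : IsSquare ((x0 - e1) * m))
    (b0 : IsSquare ((x0 - e2) * n)) (hy2 : y2 ≠ 0)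
    (h2 : y2 ^ 2 = (x2 - e1) * (x2 - e2) * (x2 - e3)) (a2 : IsSquare ((x2 - e1) * m'))
    (b2 : IsSquare ((x2 - e2) * n'))
    (s1 : IsSquare ((x - e1) * (x0 - e1))) (s2 : IsSquare ((x - e2) * (x0 - e2)))
    (s3 : IsSquare ((x - e3) * (x0 - e3))) (n1 : x ≠ e1) (n2 : x ≠ e2) (n3 : x ≠ e3)
    (hx2 : x ≠ x2)
    (x1' : ¬ y2 ^ 2 * (x - e1) = (x - e2) * (x - e3) * (x2 - e1) ^ 2)
    (x2' : ¬ y2 ^ 2 * (x - e2) = (x - e1) * (x - e3) * (x2 - e2) ^ 2)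
    (x3' : ¬ y2 ^ 2 * (x - e3) = (x - e1) * (x - e2) * (x2 - e3) ^ 2) :
    ∃ x3 y3 : K, y3 ≠ 0 ∧ y3 ^ 2 = (x3 - e1) * (x3 - e2) * (x3 - e3) ∧
      IsSquare ((x3 - e1) * (m * m')) ∧ IsSquare ((x3 - e2) * (n * n')) := by
  have hp0 : (x0 - e1) * (x0 - e2) * (x0 - e3) ≠ 0 := by
    rw [← h0]
    exact pow_ne_zero 2 hy0
  have hp2 : (x2 - e1) * (x2 - e2) * (x2 - e3) ≠ 0 := by
    rw [← h2]
    exact pow_ne_zero 2 hy2
  have c01 : x0 - e1 ≠ 0 := fun h => hp0 (by rw [h]; ring)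
  have c02 : x0 - e2 ≠ 0 := fun h => hp0 (by rw [h]; ring)
  have c21 : x2 - e1 ≠ 0 := fun h => hp2 (by rw [h]; ring)
  have c22 : x2 - e2 ≠ 0 := fun h => hp2 (by rw [h]; ring)
  have c1 : x - e1 ≠ 0 := sub_ne_zero.2 n1
  have c2 : x - e2 ≠ 0 := sub_ne_zero.2 n2
  have c3 : x - e3 ≠ 0 := sub_ne_zero.2 n3
  -- the point over x
  obtain ⟨t1, ht1⟩ := s1
  obtain ⟨t2, ht2⟩ := s2
  obtain ⟨t3, ht3⟩ := s3
  obtain ⟨y, hyd⟩ : ∃ y, y = t1 * t2 * t3 / y0 := ⟨_, rfl⟩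
  have hy : y ^ 2 = (x - e1) * (x - e2) * (x - e3) := by
    rw [hyd, div_pow, div_eq_iff (pow_ne_zero 2 hy0), h0]
    linear_combination (-(t2 * t2 * t3 * t3)) * ht1 -
      ((x - e1) * (x0 - e1) * t3 * t3) * ht2 -
      ((x - e1) * (x0 - e1) * ((x - e2) * (x0 - e2))) * ht3
  obtain ⟨μ, hμ⟩ : ∃ μ, μ = (y - y2) / (x - x2) := ⟨_, rfl⟩
  have hD : x - x2 ≠ 0 := sub_ne_zero.2 hx2
  have hy2e : y2 = y - μ * (x - x2) := by
    rw [hμ]
    field_simp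
    ring
  have hch := chord (e1 := e1) (e2 := e2) (e3 := e3) (μ := μ) hx2 hy (by rw [← hy2e]; exact h2)
  obtain ⟨x3, hx3⟩ : ∃ x3, x3 = μ ^ 2 - x - x2 + e1 + e2 + e3 := ⟨_, rfl⟩
  rw [← hx3] at hch
  have k1 : (x - e1) * (x2 - e1) * (x3 - e1) = (μ * e1 + (y - μ * x)) ^ 2 := by
    linear_combination hch e1
  have k2 : (x - e2) * (x2 - e2) * (x3 - e2) = (μ * e2 + (y - μ * x)) ^ 2 := by
    linear_combination hch e2
  have k3 : (x - e3) * (x2 - e3) * (x3 - e3) = (μ * e3 + (y - μ * x)) ^ 2 := by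
    linear_combination hch e3
  have l1 := ne_root (e := e1) (f := e2) (g := e3) n1 (by rw [hy]; ring) hy2e x1'
  have l2 := ne_root (e := e2) (f := e1) (g := e3) n2 (by rw [hy]; ring) hy2e x2'
  have l3 := ne_root (e := e3) (f := e1) (g := e2) n3 (by rw [hy]; ring) hy2e x3'
  have m1 : x3 - e1 ≠ 0 := fun h => pow_ne_zero 2 l1 (by rw [← k1, h]; ring)
  have m2 : x3 - e2 ≠ 0 := fun h => pow_ne_zero 2 l2 (by rw [← k2, h]; ring)
  have m3 : x3 - e3 ≠ 0 := fun h => pow_ne_zero 2 l3 (by rw [← k3, h]; ring)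
  have hy3 : (μ * x3 + (y - μ * x)) ^ 2 = (x3 - e1) * (x3 - e2) * (x3 - e3) := by
    linear_combination (-1 : K) * hch x3
  refine ⟨x3, μ * x3 + (y - μ * x), ?_, hy3, ?_, ?_⟩
  · intro h
    rw [h] at hy3
    have : (x3 - e1) * (x3 - e2) * (x3 - e3) ≠ 0 := mul_ne_zero (mul_ne_zero m1 m2) m3
    apply this
    rw [← hy3]
    ring
  · refine sq_of c1 c21 ⟨μ * e1 + (y - μ * x), by rw [k1]; ring⟩ ?_ a2
    exact sq_of2 c01 ⟨t1, ht1⟩ a0
  · refine sq_of c2 c22 ⟨μ * e2 + (y - μ * x), by rw [k2]; ring⟩ ?_ b2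
    exact sq_of2 c02 ⟨t2, ht2⟩ b0

/-- the first torsion point -/
theorem tor1 {e1 e2 e3 x0 y0 : K} (h12 : e1 - e2 ≠ 0) (h13 : e1 - e3 ≠ 0) (hy0 : y0 ≠ 0)
    (h0 : y0 ^ 2 = (x0 - e1) * (x0 - e2) * (x0 - e3)) (s1 : IsSquare (x0 - e1))
    (s3 : IsSquare (x0 - e3)) :
    ∃ x y : K, y ≠ 0 ∧ y ^ 2 = (x - e1) * (x - e2) * (x - e3) ∧
      IsSquare ((x - e1) * ((e1 - e2) * (e1 - e3))) ∧ IsSquare ((x - e2) * (e1 - e2)) := by
  have hp0 : (x0 - e1) * (x0 - e2) * (x0 - e3) ≠ 0 := by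
    rw [← h0]
    exact pow_ne_zero 2 hy0
  have c1 : x0 - e1 ≠ 0 := fun h => hp0 (by rw [h]; ring)
  have k1 : e1 + (e1 - e2) * (e1 - e3) / (x0 - e1) - e1 = (e1 - e2) * (e1 - e3) / (x0 - e1) := by
    ring
  have k2 : e1 + (e1 - e2) * (e1 - e3) / (x0 - e1) - e2 = (e1 - e2) * (x0 - e3) / (x0 - e1) := by
    field_simp
    ring
  have k3 : e1 + (e1 - e2) * (e1 - e3) / (x0 - e1) - e3 = (e1 - e3) * (x0 - e2) / (x0 - e1) := by
    field_simp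
    ring
  obtain ⟨a, ha⟩ := s1
  obtain ⟨b, hb⟩ := s3
  have ha0 : a ≠ 0 := by
    rintro rfl
    exact c1 (by rw [ha]; ring)
  refine ⟨e1 + (e1 - e2) * (e1 - e3) / (x0 - e1),
    (e1 - e2) * (e1 - e3) * y0 / (x0 - e1) ^ 2, ?_, ?_, ?_, ?_⟩
  · exact div_ne_zero (mul_ne_zero (mul_ne_zero h12 h13) hy0) (pow_ne_zero 2 c1)
  · rw [k1, k2, k3, div_pow, mul_pow, h0]
    field_simp
  · rw [k1]
    refine ⟨(e1 - e2) * (e1 - e3) / a, ?_⟩
    rw [ha]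
    field_simp
  · rw [k2]
    refine ⟨(e1 - e2) * b / a, ?_⟩
    rw [ha, hb]
    field_simp

end alg

/-- elements near `w` are squares times `w` -/
def SqN (K : Type) [NontriviallyNormedField K] : Prop :=
  ∀ w : K, w ≠ 0 → ∀ᶠ z in 𝓝 w, IsSquare (z * w)

theorem sqN_real : SqN ℝ := by
  intro w hw
  have h1 : Tendsto (fun z : ℝ => z * w) (𝓝 w) (𝓝 (w * w)) :=
    (continuous_id.mul continuous_const).tendsto w
  have h2 : 0 < w * w := mul_self_pos.2 hw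
  filter_upwards [h1.eventually (lt_mem_nhds h2)] with z hz
  exact ⟨Real.sqrt (z * w), (Real.mul_self_sqrt hz.le).symm⟩

theorem sqN_pad (p : ℕ) [hp : Fact p.Prime] : SqN ℚ_[p] := by
  intro w hw
  have h1 : Tendsto (fun z : ℚ_[p] => ‖z / w - 1‖) (𝓝 w) (𝓝 ‖w / w - 1‖) := by
    have : Continuous fun z : ℚ_[p] => ‖z / w - 1‖ := by fun_prop
    exact this.tendsto w
  rw [div_self hw, sub_self, norm_zero] at h1
  have hp0 : (p : ℚ_[p]) ≠ 0 := by exact_mod_cast hp.out.ne_zero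
  have h40 : (4 * p : ℚ_[p]) ≠ 0 := mul_ne_zero (by norm_num) hp0
  have h2 : 0 < ‖(4 * p : ℚ_[p])‖ := norm_pos_iff.2 h40
  filter_upwards [h1.eventually (gt_mem_nhds h2)] with z hz
  have h3 : ‖(z / w - 1) / (4 * p)‖ ≤ 1 := by
    rw [norm_div, div_le_one h2]
    exact hz.le
  obtain ⟨v, hv⟩ : ∃ v : ℤ_[p], (v : ℚ_[p]) = (z / w - 1) / (4 * p) := ⟨⟨_, h3⟩, rfl⟩
  obtain ⟨r, hr⟩ := Pool.Agent.W402.FK.hens p v
  have h4 := congrArg (fun v : ℤ_[p] => (v : ℚ_[p])) hr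
  have hc4 : ((4 : ℤ_[p]) : ℚ_[p]) = 4 := rfl
  push_cast at h4
  rw [hc4, hv] at h4
  refine ⟨w * r, ?_⟩
  have h5 : z / w = (r : ℚ_[p]) * r := by
    rw [← h4]
    field_simp
    ring
  have h6 : z = w * ((r : ℚ_[p]) * r) := by
    rw [← h5]
    field_simp
  calc z * w = (w * ((r : ℚ_[p]) * r)) * w := by rw [← h6]
    _ = _ := by ring

section top

variable {K : Type} [NontriviallyNormedField K]

theorem near (hS : SqN K) {x0 e : K} (h : x0 ≠ e) :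
    ∀ᶠ x in 𝓝 x0, IsSquare ((x - e) * (x0 - e)) ∧ x ≠ e := by
  have h1 : Tendsto (fun x : K => x - e) (𝓝 x0) (𝓝 (x0 - e)) :=
    (continuous_id.sub continuous_const).tendsto x0
  filter_upwards [h1.eventually (hS (x0 - e) (sub_ne_zero.2 h)), isOpen_ne.mem_nhds h]
    with x hx hx2
  exact ⟨hx, hx2⟩

theorem mul_ex (hS : SqN K) {e1 e2 e3 m n m' n' x0 y0 x2 y2 : K} (hy0 : y0 ≠ 0)
    (h0 : y0 ^ 2 = (x0 - e1) * (x0 - e2) * (x0 - e3)) (a0 : IsSquare ((x0 - e1) * m))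
    (b0 : IsSquare ((x0 - e2) * n)) (hy2 : y2 ≠ 0)
    (h2 : y2 ^ 2 = (x2 - e1) * (x2 - e2) * (x2 - e3)) (a2 : IsSquare ((x2 - e1) * m'))
    (b2 : IsSquare ((x2 - e2) * n')) :
    ∃ x3 y3 : K, y3 ≠ 0 ∧ y3 ^ 2 = (x3 - e1) * (x3 - e2) * (x3 - e3) ∧
      IsSquare ((x3 - e1) * (m * m')) ∧ IsSquare ((x3 - e2) * (n * n')) := by
  have hp0 : (x0 - e1) * (x0 - e2) * (x0 - e3) ≠ 0 := by
    rw [← h0]
    exact pow_ne_zero 2 hy0
  have hp2 : (x2 - e1) * (x2 - e2) * (x2 - e3) ≠ 0 := by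
    rw [← h2]
    exact pow_ne_zero 2 hy2
  have c01 : x0 ≠ e1 := fun h => hp0 (by rw [h]; ring)
  have c02 : x0 ≠ e2 := fun h => hp0 (by rw [h]; ring)
  have c03 : x0 ≠ e3 := fun h => hp0 (by rw [h]; ring)
  have c21 : x2 ≠ e1 := fun h => hp2 (by rw [h]; ring)
  have c22 : x2 ≠ e2 := fun h => hp2 (by rw [h]; ring)
  have c23 : x2 ≠ e3 := fun h => hp2 (by rw [h]; ring)
  have hinf : {x : K | (IsSquare ((x - e1) * (x0 - e1)) ∧ x ≠ e1) ∧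
      (IsSquare ((x - e2) * (x0 - e2)) ∧ x ≠ e2) ∧
      (IsSquare ((x - e3) * (x0 - e3)) ∧ x ≠ e3)}.Infinite :=
    infinite_of_mem_nhds x0 ((near hS c01).and ((near hS c02).and (near hS c03)))
  have hfin : ({x2} ∪ ({x : K | y2 ^ 2 * (x - e1) = (x - e2) * (x - e3) * (x2 - e1) ^ 2} ∪
      ({x : K | y2 ^ 2 * (x - e2) = (x - e1) * (x - e3) * (x2 - e2) ^ 2} ∪
      {x : K | y2 ^ 2 * (x - e3) = (x - e1) * (x - e2) * (x2 - e3) ^ 2}))).Finite :=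
    (Set.finite_singleton x2).union ((fin_ex c21).union ((fin_ex c22).union (fin_ex c23)))
  obtain ⟨x, hx, hxn⟩ := (hinf.diff hfin).nonempty
  obtain ⟨⟨s1, n1⟩, ⟨s2, n2⟩, s3, n3⟩ := hx
  exact mul_core hy0 h0 a0 b0 hy2 h2 a2 b2 s1 s2 s3 n1 n2 n3
    (fun h => hxn (Or.inl h)) (fun h => hxn (Or.inr (Or.inl h)))
    (fun h => hxn (Or.inr (Or.inr (Or.inl h)))) (fun h => hxn (Or.inr (Or.inr (Or.inr h))))

theorem grp [CharZero K] (hS : SqN K) (e1 e2 e3 : ℤ) (h12 : e1 ≠ e2) (h13 : e1 ≠ e3)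
    (h23 : e2 ≠ e3)
    (hpt : ∃ x y : K, y ≠ 0 ∧ y ^ 2 = (x - e1) * (x - e2) * (x - e3) ∧
      IsSquare (x - e1) ∧ IsSquare (x - e2) ∧ IsSquare (x - e3)) : GrpK K e1 e2 e3 := by
  obtain ⟨x0, y0, hy0, h0, s1, s2, s3⟩ := hpt
  have d12 : (e1 : K) - e2 ≠ 0 := sub_ne_zero.2 (by exact_mod_cast h12)
  have d13 : (e1 : K) - e3 ≠ 0 := sub_ne_zero.2 (by exact_mod_cast h13)
  have d23 : (e2 : K) - e3 ≠ 0 := sub_ne_zero.2 (by exact_mod_cast h23)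
  have d21 : (e2 : K) - e1 ≠ 0 := sub_ne_zero.2 (by exact_mod_cast h12.symm)
  refine ⟨?_, ?_, ?_, ?_, ?_⟩
  · intro m n m' n' hm hn _ _ hmm hnn h
    obtain ⟨x, y, hy, hxy, a1, a2⟩ := h
    have hm' : (m : K) ≠ 0 := by exact_mod_cast hm
    have hn' : (n : K) ≠ 0 := by exact_mod_cast hn
    push_cast at hmm hnn
    exact ⟨x, y, hy, hxy, sq_of2 hm' a1 hmm, sq_of2 hn' a2 hnn⟩
  · intro m n m' n' _ _ _ _ h h'
    obtain ⟨x, y, hy, hxy, a1, a2⟩ := h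
    obtain ⟨x', y', hy', hxy', a1', a2'⟩ := h'
    obtain ⟨x3, y3, k1, k2, k3, k4⟩ := mul_ex hS hy hxy a1 a2 hy' hxy' a1' a2'
    refine ⟨x3, y3, k1, k2, ?_, ?_⟩
    · push_cast
      exact k3
    · push_cast
      exact k4
  · refine ⟨x0, y0, hy0, h0, ?_, ?_⟩
    · rw [Int.cast_one, mul_one]
      exact s1
    · rw [Int.cast_one, mul_one]
      exact s2
  · obtain ⟨x, y, k1, k2, k3, k4⟩ := tor1 d12 d13 hy0 h0 s1 s3
    refine ⟨x, y, k1, k2, ?_, ?_⟩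
    · push_cast
      exact k3
    · push_cast
      exact k4
  · obtain ⟨x, y, k1, k2, k3, k4⟩ := tor1 (e1 := (e2 : K)) (e2 := e1) (e3 := e3) d21 d23 hy0
      (by rw [h0]; ring) s2 s3
    refine ⟨x, y, k1, by rw [k2]; ring, ?_, ?_⟩
    · push_cast
      exact k4
    · push_cast
      exact k3

end top

/-- **GK-LCG**: the local groups. -/
theorem t_LCG : S_LCG := by
  intro e1 e2 e3 h12 h13 h23
  refine ⟨grp sqN_real e1 e2 e3 h12 h13 h23 (pt_real e1 e2 e3), fun p _ => ?_⟩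
  exact grp (sqN_pad p) e1 e2 e3 h12 h13 h23 (pt_pad p e1 e2 e3)

end Pool.Agent.N340.GK.LCG
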